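import Pool.Agent.Q150.DY.Nat2
import Pool.Agent.W401.Cheb.Main

/-!
# Project DY (helper13), job NAT
-/

set_option autoImplicit false

namespace Pool.Agent.Q150.DY

theorem nat : Pool.Agent.H13DY.S_NAT := nat_of Pool.Agent.W401.Cheb.chebotarev W54.ChTor.main

end Pool.Agent.Q150.DY
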