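import Pool.Agent.H13DY.Stm

/-!
# Project DY (helper13), job NAT, part 1: reduction to a monic separable integral polynomial, and Hensel's lemma
-/

set_option autoImplicit false

namespace Pool.Agent.Q150.DY

open Polynomial

/-- monic integral polynomials with the same roots up to a factor -/
theorem exists_monic (F : ℚ[X]) (hF : F ≠ 0) : ∃ (H : ℤ[X]) (a : ℤ), a ≠ 0 ∧ H.Monic ∧
    (H.map (Int.castRingHom ℚ)).Separable ∧
    ∀ (K : Type) [Field K] [Algebra ℚ K] (x : K), aeval x F = 0 ↔ aeval ((a : K) * x) H = 0 := by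
  classical
  obtain ⟨P, hP⟩ : ∃ P : ℚ[X], P = UniqueFactorizationMonoid.radical F := ⟨_, rfl⟩
  have hPF : P ∣ F := hP ▸ UniqueFactorizationMonoid.radical_dvd_self
  have hP0 : P ≠ 0 := by
    rintro rfl
    exact hF (zero_dvd_iff.1 hPF)
  have hPsq : Squarefree P := hP ▸ UniqueFactorizationMonoid.squarefree_radical
  have hroot : ∀ (K : Type) [Field K] [Algebra ℚ K] (x : K), aeval x F = 0 ↔ aeval x P = 0 := by
    intro K _ _ x
    constructor
    · intro hx
      have hint : IsIntegral ℚ x := IsAlgebraic.isIntegral ⟨F, hF, hx⟩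
      have hirr := minpoly.irreducible hint
      have h1 : minpoly ℚ x ∣ P := by
        rw [hP]
        exact (UniqueFactorizationMonoid.dvd_radical_iff_of_irreducible hirr hF).2
          (minpoly.dvd ℚ x hx)
      obtain ⟨Q, hQ⟩ := h1
      rw [hQ, map_mul, minpoly.aeval, zero_mul]
    · intro hx
      obtain ⟨Q, hQ⟩ := hPF
      rw [hQ, map_mul, hx, zero_mul]
  -- clear denominators
  obtain ⟨b, hb⟩ := IsLocalization.integerNormalization_map_to_map (nonZeroDivisors ℤ) P
  obtain ⟨F0, hF0⟩ : ∃ F0 : ℤ[X], F0 = IsLocalization.integerNormalization (nonZeroDivisors ℤ) P :=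
    ⟨_, rfl⟩
  rw [← hF0] at hb
  have hb0 : ((b : ℤ) : ℚ) ≠ 0 := by
    have := nonZeroDivisors.ne_zero b.2
    exact_mod_cast this
  have hmap : F0.map (Int.castRingHom ℚ) = C ((b : ℤ) : ℚ) * P := by
    have h1 : F0.map (Int.castRingHom ℚ) = F0.map (algebraMap ℤ ℚ) := rfl
    rw [h1, hb, ← smul_eq_C_mul]
    ext i
    rw [coeff_smul, coeff_smul]
    simp
  have hF00 : F0 ≠ 0 := by
    rintro rfl
    rw [Polynomial.map_zero] at hmap
    exact mul_ne_zero (C_ne_zero.2 hb0) hP0 hmap.symm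
  obtain ⟨a, ha⟩ : ∃ a : ℤ, a = F0.leadingCoeff := ⟨_, rfl⟩
  have ha0 : a ≠ 0 := by
    rw [ha]
    exact leadingCoeff_ne_zero.2 hF00
  have haq : ((a : ℤ) : ℚ) ≠ 0 := by exact_mod_cast ha0
  obtain ⟨H, hH⟩ : ∃ H : ℤ[X], H = F0.integralNormalization := ⟨_, rfl⟩
  have hHm : H.Monic := hH ▸ monic_integralNormalization hF00
  have hkey : ∀ (K : Type) [Field K] [Algebra ℚ K] (x : K),
      aeval ((a : K) * x) H * (a : K) = (a : K) ^ F0.natDegree * aeval x F0 := by
    intro K _ _ x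
    have h1 := integralNormalization_mul_C_leadingCoeff F0
    have h2 := congrArg (fun Q => eval₂ (Int.castRingHom K) ((Int.castRingHom K) F0.leadingCoeff * x) Q) h1
    rw [scaleRoots_eval₂_mul, eval₂_mul, eval₂_C, ← ha, ← hH] at h2
    exact h2
  have hrt : ∀ (K : Type) [Field K] [Algebra ℚ K] (x : K),
      aeval x F = 0 ↔ aeval ((a : K) * x) H = 0 := by
    intro K _ _ x
    have hchar : CharZero K := algebraRat.charZero K
    have haK : (a : K) ≠ 0 := by exact_mod_cast ha0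
    have hbK : ((b : ℤ) : K) ≠ 0 := by
      have := nonZeroDivisors.ne_zero b.2
      exact_mod_cast this
    have h1 : aeval x F0 = ((b : ℤ) : K) * aeval x P := by
      have h2 : aeval x (F0.map (Int.castRingHom ℚ)) = aeval x F0 := by
        have h3 : F0.map (Int.castRingHom ℚ) = F0.map (algebraMap ℤ ℚ) := rfl
        rw [h3, aeval_map_algebraMap]
      rw [← h2, hmap, map_mul, aeval_C]
      congr 1
      simp
    rw [hroot K x]
    have h2 := hkey K x
    rw [h1] at h2
    constructor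
    · intro h3
      rw [h3, mul_zero, mul_zero] at h2
      exact (mul_eq_zero.1 h2).resolve_right haK
    · intro h3
      rw [h3, zero_mul] at h2
      exact (mul_eq_zero.1 ((mul_eq_zero.1 h2.symm).resolve_left (pow_ne_zero _ haK))).resolve_left hbK
  refine ⟨H, a, ha0, hHm, ?_, hrt⟩
  -- separability
  have hPsep : P.Separable := PerfectField.separable_iff_squarefree.2 hPsq
  obtain ⟨c, hc0, hc⟩ : ∃ c : ℚ, c ≠ 0 ∧ P.comp (C ((a : ℚ)⁻¹) * X) = C c * H.map (Int.castRingHom ℚ) := by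
    refine ⟨((b : ℤ) : ℚ)⁻¹ * ((a : ℚ) ^ F0.natDegree)⁻¹ * a, by positivity, ?_⟩
    refine Polynomial.funext fun r => ?_
    have h1 := hkey ℚ ((a : ℚ)⁻¹ * r)
    rw [← mul_assoc, mul_inv_cancel₀ haq, one_mul] at h1
    have h2 : aeval ((a : ℚ)⁻¹ * r) F0 = ((b : ℤ) : ℚ) * eval ((a : ℚ)⁻¹ * r) P := by
      have h3 : aeval ((a : ℚ)⁻¹ * r) F0 = eval ((a : ℚ)⁻¹ * r) (F0.map (Int.castRingHom ℚ)) := by
        rw [eval_map]
        rfl
      rw [h3, hmap, eval_mul, eval_C]
    have h3 : aeval r H = eval r (H.map (Int.castRingHom ℚ)) := by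
      rw [eval_map]
      rfl
    rw [h2, h3] at h1
    rw [eval_comp, eval_mul, eval_mul, eval_C, eval_X, eval_C]
    field_simp
    have h4 : eval ((a : ℚ)⁻¹ * r) P = eval (r / a) P := by
      rw [inv_mul_eq_div]
    rw [h4] at h1
    linear_combination -h1
  have h1 : IsCoprime (P.comp (C ((a : ℚ)⁻¹) * X)) (P.derivative.comp (C ((a : ℚ)⁻¹) * X)) := by
    have h2 := IsCoprime.map hPsep (compRingHom (C ((a : ℚ)⁻¹) * X))
    exact h2
  have h2 : P.derivative.comp (C ((a : ℚ)⁻¹) * X) * C ((a : ℚ)⁻¹) =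
      C c * (H.map (Int.castRingHom ℚ)).derivative := by
    have h3 := congrArg derivative hc
    rw [derivative_comp, derivative_mul, derivative_C, derivative_X, derivative_mul, derivative_C,
      zero_mul, zero_mul, zero_add, mul_one, zero_add] at h3
    rw [← h3, mul_comm]
  have h3 : IsCoprime (C c * H.map (Int.castRingHom ℚ))
      (C c * (H.map (Int.castRingHom ℚ)).derivative) := by
    rw [← hc, ← h2]
    exact (isCoprime_mul_unit_right_right (isUnit_C.2 (IsUnit.mk0 _ (inv_ne_zero haq))) _ _).2 h1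
  exact (h3.of_mul_left_right).of_mul_right_right

/-- the Bezout relation over the integers -/
theorem exists_bezout (H : ℤ[X]) (hsep : (H.map (Int.castRingHom ℚ)).Separable) :
    ∃ (D : ℕ) (u v : ℤ[X]), 0 < D ∧ u * H + v * H.derivative = C (D : ℤ) := by
  classical
  obtain ⟨u, v, huv⟩ := hsep
  obtain ⟨b, hb⟩ := IsLocalization.integerNormalization_map_to_map (nonZeroDivisors ℤ) u
  obtain ⟨c, hc⟩ := IsLocalization.integerNormalization_map_to_map (nonZeroDivisors ℤ) v
  obtain ⟨u0, hu0⟩ : ∃ u0 : ℤ[X], u0 = IsLocalization.integerNormalization (nonZeroDivisors ℤ) u :=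
    ⟨_, rfl⟩
  obtain ⟨v0, hv0⟩ : ∃ v0 : ℤ[X], v0 = IsLocalization.integerNormalization (nonZeroDivisors ℤ) v :=
    ⟨_, rfl⟩
  rw [← hu0] at hb
  rw [← hv0] at hc
  have hbm : u0.map (Int.castRingHom ℚ) = C ((b : ℤ) : ℚ) * u := by
    have h1 : u0.map (Int.castRingHom ℚ) = u0.map (algebraMap ℤ ℚ) := rfl
    rw [h1, hb, ← smul_eq_C_mul]
    ext i
    rw [coeff_smul, coeff_smul]
    simp
  have hcm : v0.map (Int.castRingHom ℚ) = C ((c : ℤ) : ℚ) * v := by
    have h1 : v0.map (Int.castRingHom ℚ) = v0.map (algebraMap ℤ ℚ) := rfl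
    rw [h1, hc, ← smul_eq_C_mul]
    ext i
    rw [coeff_smul, coeff_smul]
    simp
  have hb0 : (b : ℤ) ≠ 0 := nonZeroDivisors.ne_zero b.2
  have hc0 : (c : ℤ) ≠ 0 := nonZeroDivisors.ne_zero c.2
  have h1 : (C (c : ℤ) * u0) * H + (C (b : ℤ) * v0) * H.derivative = C ((b : ℤ) * (c : ℤ)) := by
    apply map_injective (Int.castRingHom ℚ) Int.cast_injective
    rw [Polynomial.map_add, Polynomial.map_mul, Polynomial.map_mul, Polynomial.map_mul,
      Polynomial.map_mul, hbm, hcm, map_C, map_C, map_C, ← derivative_map]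
    have h2 := congrArg (fun Q => C (((b : ℤ) : ℚ) * ((c : ℤ) : ℚ)) * Q) huv
    simp only [mul_one] at h2
    simp only [eq_intCast, Int.cast_mul] at h2 ⊢
    rw [← h2, C_mul]
    ring
  refine ⟨((b : ℤ) * (c : ℤ)).natAbs, C (Int.sign ((b : ℤ) * (c : ℤ))) * (C (c : ℤ) * u0),
    C (Int.sign ((b : ℤ) * (c : ℤ))) * (C (b : ℤ) * v0), ?_, ?_⟩
  · exact Int.natAbs_pos.2 (mul_ne_zero hb0 hc0)
  · have h2 := congrArg (fun Q => C (Int.sign ((b : ℤ) * (c : ℤ))) * Q) h1
    rw [← C_mul, Int.sign_mul_self_eq_natAbs] at h2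
    rw [← h2]
    ring

/-- the derivative at a root modulo `p` -/
theorem deriv_ne {H u v : ℤ[X]} {D : ℕ} (h : u * H + v * H.derivative = C (D : ℤ)) {A : Type}
    [CommRing A] (t : A) (ht : aeval t H = 0) (hD : (D : A) ≠ 0) : aeval t H.derivative ≠ 0 := by
  intro h1
  have h2 := congrArg (aeval t) h
  rw [map_add, map_mul, map_mul, ht, h1, mul_zero, mul_zero, add_zero, aeval_C] at h2
  apply hD
  have h3 : algebraMap ℤ A (D : ℤ) = (D : A) := by simp
  rw [← h3, ← h2]

/-- roots in `ℚ_p` and roots modulo `p` -/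
theorem root_iff {H u v : ℤ[X]} {D : ℕ} (hm : H.Monic) (h : u * H + v * H.derivative = C (D : ℤ))
    (p : ℕ) [Fact p.Prime] (hp : ¬ p ∣ D) :
    (∃ y : ℚ_[p], aeval y H = 0) ↔ ∃ t : ZMod p, aeval t H = 0 := by
  constructor
  · rintro ⟨y, hy⟩
    have h1 : IsIntegral ℤ_[p] y := by
      refine ⟨H.map (Int.castRingHom ℤ_[p]), hm.map _, ?_⟩
      rw [eval₂_map]
      have h2 : (algebraMap ℤ_[p] ℚ_[p]).comp (Int.castRingHom ℤ_[p]) = algebraMap ℤ ℚ_[p] :=
        RingHom.ext_int _ _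
      rw [h2]
      exact hy
    obtain ⟨z, rfl⟩ := IsIntegrallyClosed.isIntegral_iff.1 h1
    have h2 : aeval z H = 0 := by
      apply FaithfulSMul.algebraMap_injective ℤ_[p] ℚ_[p]
      rw [map_zero]
      have h3 := Polynomial.aeval_algHom_apply (algebraMap ℤ_[p] ℚ_[p]).toIntAlgHom z H
      exact h3.symm.trans hy
    refine ⟨PadicInt.toZMod z, ?_⟩
    have h3 := Polynomial.aeval_algHom_apply (PadicInt.toZMod (p := p)).toIntAlgHom z H
    rw [h2, map_zero] at h3
    exact h3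
  · rintro ⟨t, ht⟩
    obtain ⟨z, hz⟩ := ZMod.ringHom_surjective (PadicInt.toZMod (p := p)) t
    have hlt : ∀ w : ℤ_[p], PadicInt.toZMod w = 0 → ‖w‖ < 1 := by
      intro w hw
      have h1 : w ∈ RingHom.ker (PadicInt.toZMod (p := p)) := hw
      rw [PadicInt.ker_toZMod, PadicInt.maximalIdeal_eq_span_p, Ideal.mem_span_singleton] at h1
      exact PadicInt.norm_lt_one_iff_dvd w |>.2 h1
    have hge : ∀ w : ℤ_[p], PadicInt.toZMod w ≠ 0 → ‖w‖ = 1 := by
      intro w hw
      by_contra h1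
      have h2 : ‖w‖ < 1 := lt_of_le_of_ne (PadicInt.norm_le_one w) h1
      apply hw
      have h3 : w ∈ RingHom.ker (PadicInt.toZMod (p := p)) := by
        rw [PadicInt.ker_toZMod, PadicInt.maximalIdeal_eq_span_p, Ideal.mem_span_singleton]
        exact (PadicInt.norm_lt_one_iff_dvd w).1 h2
      exact h3
    have h1 : ‖aeval z H‖ < 1 := by
      apply hlt
      have h3 := Polynomial.aeval_algHom_apply (PadicInt.toZMod (p := p)).toIntAlgHom z H
      have h4 : (PadicInt.toZMod (p := p)).toIntAlgHom z = t := hz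
      rw [h4, ht] at h3
      exact h3.symm
    have h2 : ‖aeval z H.derivative‖ = 1 := by
      apply hge
      have h3 := Polynomial.aeval_algHom_apply (PadicInt.toZMod (p := p)).toIntAlgHom z H.derivative
      have h4 : (PadicInt.toZMod (p := p)).toIntAlgHom z = t := hz
      rw [h4] at h3
      intro h5
      apply deriv_ne h t ht
      · intro h6
        exact hp ((ZMod.natCast_eq_zero_iff _ _).1 h6)
      · exact h3.trans h5
    obtain ⟨w, hw, -⟩ := hensels_lemma (F := H) (a := z) (by rw [h2, one_pow]; exact h1)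
    refine ⟨(w : ℚ_[p]), ?_⟩
    have h3 := Polynomial.aeval_algHom_apply (algebraMap ℤ_[p] ℚ_[p]).toIntAlgHom w H
    rw [hw, map_zero] at h3
    exact h3

end Pool.Agent.Q150.DY
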