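import Pool.Agent.Q150.DY.Nat1
import Pool.Agent.W401.Cheb.Grp

/-!
# Project DY (helper13), job NAT, part 2: Frobenius elements and roots modulo `p`; the density
-/

set_option autoImplicit false

namespace Pool.Agent.Q150.DY

open Polynomial NumberField Pool.Agent.W401.Cheb Pool.Agent.H13DY Filter Topology

/-- an element of the algebraic closure which is its own `p`-th power -/
theorem mem_range_of_pow {p : ℕ} [Fact p.Prime] {x : AlgebraicClosure (ZMod p)} (h : x ^ p = x) :
    ∃ r : ZMod p, algebraMap (ZMod p) (AlgebraicClosure (ZMod p)) r = x := by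
  have : CharP (AlgebraicClosure (ZMod p)) p :=
    charP_of_injective_algebraMap (algebraMap (ZMod p) (AlgebraicClosure (ZMod p))).injective p
  have h1 := (Subfield.mem_bot_iff_pow_eq_self (AlgebraicClosure (ZMod p)) p).2 h
  rw [← ZMod.fieldRange_castHom_eq_bot p] at h1
  obtain ⟨r, hr⟩ := h1
  refine ⟨r, ?_⟩
  rw [← hr]
  congr 1
  exact Subsingleton.elim _ _

theorem hom_aeval {A B : Type} [CommRing A] [CommRing B] (f : A →+* B) (H : ℤ[X]) (a : A) :
    aeval (f a) H = f (aeval a H) :=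
  Polynomial.aeval_algHom_apply f.toIntAlgHom a H

/-- two different roots in a domain with the same image -/
theorem deriv_zero {A B : Type} [CommRing A] [IsDomain A] [CommRing B] (f : A →+* B) (H : ℤ[X])
    {x y : A} (hx : aeval x H = 0) (hy : aeval y H = 0) (hne : x ≠ y) (hf : f x = f y) :
    aeval (f x) H.derivative = 0 := by
  obtain ⟨P, hP⟩ : ∃ P : A[X], P = H.map (Int.castRingHom A) := ⟨_, rfl⟩
  have e1 : ∀ z : A, eval z P = aeval z H := by
    intro z
    rw [hP, eval_map]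
    rfl
  have e2 : ∀ z : A, eval z P.derivative = aeval z H.derivative := by
    intro z
    rw [hP, derivative_map, eval_map]
    rfl
  have h1 : P.IsRoot x := (e1 x).trans hx
  obtain ⟨Q, hQ⟩ := dvd_iff_isRoot.2 h1
  have h2 : Q.IsRoot y := by
    have h3 : eval y P = 0 := (e1 y).trans hy
    rw [hQ, eval_mul, eval_sub, eval_X, eval_C] at h3
    exact (mul_eq_zero.1 h3).resolve_left (sub_ne_zero.2 hne.symm)
  obtain ⟨Q2, hQ2⟩ := dvd_iff_isRoot.2 h2
  rw [hom_aeval, ← e2]
  have h3 : eval x P.derivative = (x - y) * eval x Q2 := by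
    rw [hQ, derivative_mul, eval_add, eval_mul, eval_mul, derivative_sub, derivative_X,
      derivative_C, eval_sub, eval_sub, eval_X, eval_C, hQ2, eval_mul, eval_sub, eval_X, eval_C]
    simp
  rw [h3, map_mul, map_sub, hf, sub_self, zero_mul]

section

variable {L : Type} [Field L] [NumberField L] [IsGalois ℚ L] {p : ℕ} [Fact p.Prime]

/-- the integral element of a root -/
theorem exists_int {H : ℤ[X]} (hm : H.Monic) {θ : L} (hθ : aeval θ H = 0) :
    ∃ x : 𝓞 L, (x : L) = θ ∧ aeval x H = 0 := by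
  refine ⟨⟨θ, H, hm, hθ⟩, rfl, ?_⟩
  apply RingOfIntegers.coe_injective
  have h1 := hom_aeval (algebraMap (𝓞 L) L) H (⟨θ, H, hm, hθ⟩ : 𝓞 L)
  rw [map_zero]
  exact h1.symm.trans hθ

/-- every root in the prime field is the image of a root -/
theorem exists_root {H : ℤ[X]} (hm : H.Monic) (hs : (H.map (Int.castRingHom L)).Splits)
    (φ : 𝓞 L →+* AlgebraicClosure (ZMod p)) (t : ZMod p) (ht : aeval t H = 0) :
    ∃ x : 𝓞 L, aeval x H = 0 ∧ φ x = algebraMap (ZMod p) (AlgebraicClosure (ZMod p)) t := by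
  classical
  obtain ⟨m, rfl⟩ := ZMod.intCast_surjective t
  have h1 : algebraMap (ZMod p) (AlgebraicClosure (ZMod p)) ((m : ℤ) : ZMod p) = φ (m : 𝓞 L) := by
    rw [map_intCast, map_intCast]
  have h2 : φ (aeval (m : 𝓞 L) H) = 0 := by
    rw [← hom_aeval, ← h1, hom_aeval, ht, map_zero]
  -- the product formula
  have hmL : (H.map (Int.castRingHom L)).Monic := hm.map _
  have h3 : H.map (Int.castRingHom L) =
      ((H.map (Int.castRingHom L)).roots.map fun a => X - C a).prod := by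
    have := hs.eq_prod_roots
    rw [hmL.leadingCoeff, C_1, one_mul] at this
    exact this
  have hroots : ∀ a ∈ (H.map (Int.castRingHom L)).roots, aeval a H = 0 := by
    intro a ha
    have h4 := (mem_roots'.1 ha).2
    rw [IsRoot.def, eval_map] at h4
    exact h4
  choose! g hg1 hg2 using fun (a : L) (ha : aeval a H = 0) => exists_int (L := L) hm ha
  have h4 : aeval (m : 𝓞 L) H =
      ((H.map (Int.castRingHom L)).roots.map fun a => (m : 𝓞 L) - g a).prod := by
    apply RingOfIntegers.coe_injective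
    have h5 : algebraMap (𝓞 L) L (aeval (m : 𝓞 L) H) = eval (m : L) (H.map (Int.castRingHom L)) := by
      rw [← hom_aeval, map_intCast, eval_map]
      rfl
    rw [h5]
    conv_lhs => rw [h3]
    rw [eval_multiset_prod, Multiset.map_map, map_multiset_prod, Multiset.map_map]
    congr 1
    refine Multiset.map_congr rfl fun a ha => ?_
    simp only [Function.comp]
    rw [eval_sub, eval_X, eval_C, map_sub, map_intCast]
    congr 1
    exact (hg1 a (hroots a ha)).symm
  rw [h4, map_multiset_prod, Multiset.map_map, Multiset.prod_eq_zero_iff, Multiset.mem_map] at h2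
  obtain ⟨a, ha, h5⟩ := h2
  refine ⟨g a, hg2 a (hroots a ha), ?_⟩
  simp only [Function.comp] at h5
  rw [map_sub, sub_eq_zero] at h5
  rw [h1, h5]

theorem aeval_smul (g : Gal(L/ℚ)) (H : ℤ[X]) (x : 𝓞 L) : aeval (g • x) H = g • aeval x H :=
  hom_aeval (MulSemiringAction.toRingHom Gal(L/ℚ) (𝓞 L) g) H x

/-- **roots modulo `p` and Frobenius elements** -/
theorem frob_iff {H u v : ℤ[X]} {D : ℕ} (hm : H.Monic) (h : u * H + v * H.derivative = C (D : ℤ))
    (hs : (H.map (Int.castRingHom L)).Splits) (hp : ¬ p ∣ D)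
    {φ : 𝓞 L →+* AlgebraicClosure (ZMod p)} {g : Gal(L/ℚ)} (hg : HasFrob p φ g) :
    (∃ t : ZMod p, aeval t H = 0) ↔ ∃ θ : L, aeval θ H = 0 ∧ g θ = θ := by
  have hchar : CharP (AlgebraicClosure (ZMod p)) p :=
    charP_of_injective_algebraMap (algebraMap (ZMod p) (AlgebraicClosure (ZMod p))).injective p
  constructor
  · rintro ⟨t, ht⟩
    obtain ⟨x, hx, hxt⟩ := exists_root hm hs φ t ht
    have h1 : φ (g • x) = φ x := by
      rw [hg x, hxt, ← map_pow, ZMod.pow_card]
    have h2 : aeval (g • x) H = 0 := by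
      rw [aeval_smul, hx, smul_zero]
    refine ⟨x, ?_, ?_⟩
    · have h3 := hom_aeval (algebraMap (𝓞 L) L) H x
      rw [hx, map_zero] at h3
      exact h3
    · by_contra h3
      have hne : g • x ≠ x := fun h4 => h3 (congrArg (fun z : 𝓞 L => (z : L)) h4)
      have h4 := deriv_zero φ H h2 hx hne h1
      refine deriv_ne h (φ (g • x)) ?_ ?_ h4
      · rw [hom_aeval, h2, map_zero]
      · intro h5
        exact hp ((CharP.cast_eq_zero_iff _ p D).1 h5)
  · rintro ⟨θ, hθ, hgθ⟩
    obtain ⟨x, hxθ, hx⟩ := exists_int hm hθ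
    have h1 : g • x = x := by
      apply RingOfIntegers.coe_injective
      show g (x : L) = x
      rw [hxθ, hgθ]
    have h2 : φ x ^ p = φ x := by
      rw [← hg x, h1]
    obtain ⟨t, ht⟩ := mem_range_of_pow h2
    refine ⟨t, ?_⟩
    apply (algebraMap (ZMod p) (AlgebraicClosure (ZMod p))).injective
    rw [← hom_aeval, ht, hom_aeval, hx, map_zero, map_zero]

end

/-- the density, for a Galois extension over which the polynomial splits -/
theorem dens (hC : Chebotarev) (hT : TaskTor) (F : ℚ[X]) (H : ℤ[X]) (a : ℤ) (ha0 : a ≠ 0)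
    (hm : H.Monic) (hsep : (H.map (Int.castRingHom ℚ)).Separable)
    (hroot : ∀ (K : Type) [Field K] [Algebra ℚ K] (x : K),
      aeval x F = 0 ↔ aeval ((a : K) * x) H = 0)
    (L : Type) [Field L] [NumberField L] [IsGalois ℚ L] (hs : (H.map (Int.castRingHom L)).Splits)
    (Ω : Type) [Field Ω] [CharZero Ω] [IsAlgClosed Ω] (σ : Ω ≃+* Ω)
    (hσ : ∀ x : Ω, aeval x F = 0 → σ x ≠ x) : ∃ d : ℝ, d < 1 ∧ HasNatDens (RootPrimes F) d := by
  classical
  obtain ⟨D, u, v, hD0, hD⟩ := exists_bezout H hsep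
  obtain ⟨E, hE0, hE⟩ := hT L
  obtain ⟨T, hTd⟩ : ∃ T : Finset Gal(L/ℚ), T = Finset.univ.filter
      (fun g => ∃ θ : L, aeval θ H = 0 ∧ g θ = θ) := ⟨_, rfl⟩
  have memT : ∀ g, g ∈ T ↔ ∃ θ : L, aeval θ H = 0 ∧ g θ = θ := by
    intro g
    rw [hTd, Finset.mem_filter]
    exact ⟨fun h => h.2, fun h => ⟨Finset.mem_univ _, h⟩⟩
  -- the set `T` is not everything
  have hlt : T.card < Fintype.card Gal(L/ℚ) := by
    obtain ⟨σ', hσ'⟩ : ∃ σ' : Ω ≃ₐ[ℚ] Ω, ∀ x, σ' x = σ x :=
      ⟨AlgEquiv.ofRingEquiv (f := σ) (fun r => by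
        rw [eq_ratCast]
        exact map_ratCast σ r), fun x => rfl⟩
    let ι : L →ₐ[ℚ] Ω := IsAlgClosed.lift
    let _ : Algebra L Ω := ι.toRingHom.toAlgebra
    have : IsScalarTower ℚ L Ω := IsScalarTower.of_algebraMap_eq fun r => (ι.commutes r).symm
    obtain ⟨g, hg⟩ : ∃ g : Gal(L/ℚ), ∀ x, ι (g x) = σ (ι x) := by
      refine ⟨σ'.restrictNormal L, fun x => ?_⟩
      have h1 := AlgEquiv.restrictNormal_commutes σ' L x
      rw [← hσ']
      exact h1
    have hgT : g ∉ T := by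
      rw [memT]
      rintro ⟨θ, hθ, hgθ⟩
      have haΩ : (a : Ω) ≠ 0 := by exact_mod_cast ha0
      refine hσ ((a : Ω)⁻¹ * ι θ) ?_ ?_
      · rw [hroot, ← mul_assoc, mul_inv_cancel₀ haΩ, one_mul]
        have h1 : aeval (ι θ) H = ι (aeval θ H) := hom_aeval ι.toRingHom H θ
        rw [h1, hθ, map_zero]
      · rw [map_mul, map_inv₀, map_intCast, ← hg, hgθ]
    rw [← Finset.card_univ]
    exact Finset.card_lt_card (Finset.ssubset_univ_iff.2 fun h => hgT (h ▸ Finset.mem_univ g))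
  obtain ⟨n, hn⟩ : ∃ n : ℕ, n = Fintype.card Gal(L/ℚ) := ⟨_, rfl⟩
  have hn0 : (0 : ℝ) < n := by
    rw [hn]
    exact_mod_cast Fintype.card_pos
  refine ⟨(T.card : ℝ) / n, ?_, ?_⟩
  · rw [div_lt_one hn0, hn]
    exact_mod_cast hlt
  -- the indicator function
  obtain ⟨f, hf⟩ : ∃ f : ℕ → ℝ, f = fun p => if p ∈ RootPrimes F then 1 else 0 := ⟨_, rfl⟩
  have hMf : ∀ N : ℕ, (({p : ℕ | p ≤ N ∧ p.Prime ∧ p ∈ RootPrimes F}.ncard : ℝ)) /
      (Nat.primeCounting N : ℝ) = M f N := by
    intro N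
    unfold M
    congr 1
    have h1 : {p : ℕ | p ≤ N ∧ p.Prime ∧ p ∈ RootPrimes F} =
        ((pr N).filter (fun p => p ∈ RootPrimes F) : Finset ℕ) := by
      ext p
      rw [Finset.mem_coe, Finset.mem_filter, mem_pr, Set.mem_ofPred_eq, and_assoc]
    rw [h1, Set.ncard_coe_finset, hf, Finset.sum_ite, Finset.sum_const_zero, add_zero,
      Finset.sum_const, nsmul_eq_mul, mul_one]
  unfold HasNatDens
  simp only [hMf]
  refine M_congr (D := E * D) (Nat.mul_pos hE0 hD0)
    (b := fun p => (n : ℝ)⁻¹ * ∑ g ∈ T, (xp L g p : ℝ)) ?_ ?_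
  · intro p hp hpED
    have : Fact p.Prime := ⟨hp⟩
    have hpE : ¬ p ∣ E := fun h => hpED (h.mul_right _)
    have hpD : ¬ p ∣ D := fun h => hpED (h.mul_left _)
    have htor : TorAt L p := hE p hpE
    -- when is `p` in the set
    have hmem : ∀ (φ : 𝓞 L →+* AlgebraicClosure (ZMod p)) (g : Gal(L/ℚ)), HasFrob p φ g →
        (p ∈ RootPrimes F ↔ g ∈ T) := by
      intro φ g hg
      rw [memT, ← frob_iff hm hD hs hpD hg, ← root_iff hm hD p hpD]
      constructor
      · rintro ⟨_, x, hx⟩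
        exact ⟨_, (hroot ℚ_[p] x).1 hx⟩
      · rintro ⟨y, hy⟩
        have hap : ((a : ℤ) : ℚ_[p]) ≠ 0 := by exact_mod_cast ha0
        refine ⟨inferInstance, (a : ℚ_[p])⁻¹ * y, ?_⟩
        rw [hroot, ← mul_assoc, mul_inv_cancel₀ hap, one_mul]
        exact hy
    have hx0 : ∀ g : Gal(L/ℚ), xp L g p ≠ 0 → ∃ φ : 𝓞 L →+* AlgebraicClosure (ZMod p),
        HasFrob p φ g := by
      intro g hg
      by_contra h
      push Not at h
      apply hg
      unfold xp
      rw [dif_pos hp]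
      have : IsEmpty {φ : 𝓞 L →+* AlgebraicClosure (ZMod p) // HasFrob p φ g} :=
        ⟨fun φ => h φ.1 φ.2⟩
      exact Nat.card_of_isEmpty
    rw [hf]
    simp only
    by_cases hpS : p ∈ RootPrimes F
    · rw [if_pos hpS]
      have h1 : ∑ g ∈ T, (xp L g p : ℝ) = ∑ g : Gal(L/ℚ), (xp L g p : ℝ) := by
        refine Finset.sum_subset (Finset.subset_univ _) fun g _ hgT => ?_
        by_contra h2
        obtain ⟨φ, hφ⟩ := hx0 g (by exact_mod_cast h2)
        exact hgT ((hmem φ g hφ).1 hpS)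
      have h2 := sum_xp htor
      rw [Nat.card_eq_fintype_card, ← hn] at h2
      rw [h1, ← Nat.cast_sum, h2, inv_mul_cancel₀ hn0.ne']
    · rw [if_neg hpS]
      have h1 : ∑ g ∈ T, (xp L g p : ℝ) = 0 := by
        refine Finset.sum_eq_zero fun g hgT => ?_
        by_contra h2
        obtain ⟨φ, hφ⟩ := hx0 g (by exact_mod_cast h2)
        exact hpS ((hmem φ g hφ).2 hgT)
      rw [h1, mul_zero]
  · have h1 : Tendsto (fun N => (n : ℝ)⁻¹ * ∑ g ∈ T, M (fun p => (xp L g p : ℝ)) N) atTop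
        (𝓝 ((n : ℝ)⁻¹ * ∑ _g ∈ T, (1 : ℝ))) :=
      (tendsto_finsetSum T fun g _ => hC L g).const_mul _
    rw [Finset.sum_const, nsmul_eq_mul, mul_one, ← div_eq_inv_mul] at h1
    refine h1.congr fun N => ?_
    have h2 := M_smul (n : ℝ)⁻¹ (fun p => ∑ g ∈ T, (xp L g p : ℝ)) N
    rw [h2, M_sum]

theorem conv {N : Type} [Field N] (i : Algebra ℚ N) (h : FiniteDimensional ℚ N) (hn : Normal ℚ N) :
    ∃ _ : NumberField N, @IsGalois ℚ _ N _ DivisionRing.toRatAlgebra := by
  have hc : CharZero N := algebraRat.charZero N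
  have e : i = DivisionRing.toRatAlgebra := Subsingleton.elim _ _
  subst e
  exact ⟨⟨⟩, ⟨⟩⟩

theorem exists_split (K : Type) [Field K] (P : K[X]) : ∃ (L : Type) (_ : Field L) (_ : Algebra K L),
    FiniteDimensional K L ∧ Normal K L ∧ (P.map (algebraMap K L)).Splits :=
  ⟨P.SplittingField, inferInstance, inferInstance,
    Polynomial.IsSplittingField.finiteDimensional _ P, Normal.of_isSplittingField P,
    Polynomial.SplittingField.splits P⟩

theorem nat_of (hC : Chebotarev) (hT : TaskTor) : S_NAT := by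
  intro F hF Ω _ _ _ σ hσ
  obtain ⟨H, a, ha0, hm, hsep, hroot⟩ := exists_monic F hF
  obtain ⟨L, _, _, _, hs⟩ : ∃ (L : Type) (_ : Field L) (_ : NumberField L) (_ : IsGalois ℚ L),
      (H.map (Int.castRingHom L)).Splits := by
    obtain ⟨L, i1, i2, h1, h2, h3⟩ := exists_split ℚ (H.map (Int.castRingHom ℚ))
    obtain ⟨h4, h5⟩ := conv i2 h1 h2
    refine ⟨L, i1, h4, h5, ?_⟩
    rw [Polynomial.map_map] at h3
    have h6 : (algebraMap ℚ L).comp (Int.castRingHom ℚ) = Int.castRingHom L := RingHom.ext_int _ _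
    rw [h6] at h3
    exact h3
  exact dens hC hT F H a ha0 hm hsep hroot L hs Ω σ hσ

end Pool.Agent.Q150.DY
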